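import Pool.Agent.X19.RS.Stm

/-! Part RS_ROW (helper19's project), backup proof. -/

set_option autoImplicit false

open MeasureTheory ProbabilityTheory Filter Topology
open scoped ENNReal InnerProductSpace

namespace Pool.Agent.X287.RS

open Pool.Agent.X19.SS Pool.Agent.X19.RS

theorem transp {X : Type} [MeasurableSpace X] (μ : Measure X) [IsProbabilityMeasure μ] (ι κ : Type)
    [Fintype ι] [Fintype κ] :
    MeasurePreserving (fun (h : ι → κ → X) (a : κ) (k : ι) => h k a)
      (Measure.pi fun _ : ι => Measure.pi fun _ : κ => μ)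
      (Measure.pi fun _ : κ => Measure.pi fun _ : ι => μ) := by
  refine ⟨by fun_prop, ?_⟩
  have h1 := Measure.infinitePi_map_curry_symm (ι := ι) (κ := κ) (fun _ _ => μ)
  have h2 := Measure.infinitePi_map_curry (ι := κ) (κ := ι) (fun _ _ => μ)
  simp only [Measure.infinitePi_eq_pi] at h1 h2
  have h3 := measurePreserving_piCongrLeft (fun _ : κ × ι => μ) (Equiv.prodComm ι κ)
  rw [← h2, ← h3.map_eq, ← h1, Measure.map_map (by fun_prop) (by fun_prop),
    Measure.map_map (by fun_prop) (by fun_prop)]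
  congr 1

variable {K : Type} [RCLike K]

instance gprob [MeasurableSpace K] [BorelSpace K] (ι : Type) [Fintype ι] :
    IsProbabilityMeasure (gK K ι) := by unfold gK; infer_instance

/-- law of the coefficient vectors -/
theorem coef [MeasurableSpace K] [BorelSpace K] (hB2 : S_B2) {l r q : ℕ} (m : ℕ)
    (b : OrthonormalBasis (Fin q ⊕ Fin (r + 1)) K (EuclideanSpace K (Fin l))) :
    MeasurePreserving (fun (h : Fin m → Fin l → K) (a : Fin (r + 1)) (k : Fin m) =>
        (b.repr (WithLp.toLp 2 (h k))) (Sum.inr a)) (gM K m l)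
      (Measure.pi fun _ : Fin (r + 1) => gK K (Fin m)) := by
  have h1 : MeasurePreserving (fun (h : Fin m → Fin l → K) (k : Fin m) =>
      (WithLp.ofLp (b.repr (WithLp.toLp 2 (h k))) : (Fin q ⊕ Fin (r + 1)) → K))
      (Measure.pi fun _ : Fin m => gK K (Fin l))
      (Measure.pi fun _ : Fin m => gK K (Fin q ⊕ Fin (r + 1))) :=
    measurePreserving_pi _ _ (fun _ => hB2 K (Fin l) (Fin q ⊕ Fin (r + 1)) b.repr)
  have h2 := transp (stdGaussian K) (Fin m) (Fin q ⊕ Fin (r + 1))
  have h3 := measurePreserving_sumPiEquivProdPi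
    (fun _ : Fin q ⊕ Fin (r + 1) => (Measure.pi fun _ : Fin m => stdGaussian K))
  have h4 : MeasurePreserving (Prod.snd) ((Measure.pi fun _ : Fin q => (Measure.pi fun _ : Fin m => stdGaussian K)).prod
    (Measure.pi fun _ : Fin (r+1) => (Measure.pi fun _ : Fin m => stdGaussian K)))
    (Measure.pi fun _ : Fin (r+1) => (Measure.pi fun _ : Fin m => stdGaussian K)) := measurePreserving_snd
  exact h4.comp (h3.comp (h2.comp h1))

theorem meas_dist2 [MeasurableSpace K] [BorelSpace K] (m r : ℕ) :
    Measurable fun p : (Fin m → K) × (Fin r → Fin m → K) => dist2 p.2 p.1 := by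
  apply UpperSemicontinuous.measurable
  apply upperSemicontinuous_iInf
  intro v
  apply Continuous.upperSemicontinuous
  unfold nsq
  fun_prop

theorem int_dist [MeasurableSpace K] [BorelSpace K] (hD2 : S_D2) (hD3 : S_D3) (m r : ℕ) (hr : r ≤ m) :
    ∫⁻ C, dist2 (fun a : Fin r => C a.succ) (C 0) ∂(Measure.pi fun _ : Fin (r + 1) => gK K (Fin m)) =
      (Module.finrank ℝ K : ℝ≥0∞) * ((m - r : ℕ) : ℝ≥0∞) := by
  have h1 := measurePreserving_piFinSuccAbove (fun _ : Fin (r + 1) => gK K (Fin m)) 0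
  have h2 := h1.lintegral_comp (meas_dist2 (K := K) m r)
  have e : ∀ C : Fin (r + 1) → Fin m → K,
      dist2 (fun a : Fin r => C a.succ) (C 0) =
      dist2 ((MeasurableEquiv.piFinSuccAbove (fun _ => Fin m → K) 0) C).2
        ((MeasurableEquiv.piFinSuccAbove (fun _ => Fin m → K) 0) C).1 := by
    intro C
    rfl
  simp_rw [e]
  rw [h2, lintegral_prod_symm' _ (meas_dist2 (K := K) m r)]
  have h3 : ∀ᵐ S ∂(Measure.pi (fun _ : Fin r => gK K (Fin m))),
      ∫⁻ x, dist2 S x ∂(gK K (Fin m)) = (Module.finrank ℝ K : ℝ≥0∞) * ((m - r : ℕ) : ℝ≥0∞) := by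
    filter_upwards [hD2 K r (Fin m) (by simpa using hr)] with S hS
    have := hD3 K r (Fin m) S hS (by simpa using hr)
    simpa using this
  rw [lintegral_congr_ae h3]
  simp

theorem basis_ex {l q : ℕ} (hq : q + 1 ≤ l) (g : Fin (q + 1) → Fin l → K) (hg : LinearIndependent K g)
    (j : Fin (q + 1)) :
    ∃ b : OrthonormalBasis (Fin q ⊕ Fin (l - q - 1 + 1)) K (EuclideanSpace K (Fin l)),
      (∀ x : EuclideanSpace K (Fin l), (∀ a, ⟪b (Sum.inr a), x⟫_K = 0) →
        x ∈ Submodule.span K (Set.range fun i : Fin q => (WithLp.toLp 2 (g (j.succAbove i)) : EuclideanSpace K (Fin l)))) ∧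
      (∀ a : Fin (l - q - 1), ⟪b (Sum.inr a.succ), (WithLp.toLp 2 (g j) : EuclideanSpace K (Fin l))⟫_K = 0) ∧
      (∀ a (i : Fin q), ⟪b (Sum.inr a), (WithLp.toLp 2 (g (j.succAbove i)) : EuclideanSpace K (Fin l))⟫_K = 0) ∧
      ⟪b (Sum.inr 0), (WithLp.toLp 2 (g j) : EuclideanSpace K (Fin l))⟫_K ≠ 0 := by
  set γ : Fin (q + 1) → EuclideanSpace K (Fin l) := fun i => WithLp.toLp 2 (g i) with hγ
  have hγi : LinearIndependent K γ := by
    have := hg.map' ((WithLp.linearEquiv 2 K (Fin l → K)).symm : (Fin l → K) →ₗ[K] EuclideanSpace K (Fin l))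
      (LinearEquiv.ker _)
    exact this
  set W : Submodule K (EuclideanSpace K (Fin l)) := Submodule.span K (Set.range fun i : Fin q => γ (j.succAbove i)) with hW
  set V : Submodule K (EuclideanSpace K (Fin l)) := Submodule.span K (Set.range γ) with hV
  have hγW : γ j ∉ W := by
    have h := hγi.notMem_span_image (s := Set.range j.succAbove) (x := j) (by
      rintro ⟨i, hi⟩
      exact Fin.succAbove_ne j i hi)
    rwa [← Set.range_comp] at h
  have hWV : W ≤ V := Submodule.span_mono (by rintro _ ⟨i, rfl⟩; exact ⟨_, rfl⟩)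
  have hgi : ∀ i : Fin q, γ (j.succAbove i) ∈ W := fun i => Submodule.subset_span ⟨i, rfl⟩
  have hjV : γ j ∈ V := Submodule.subset_span ⟨j, rfl⟩
  set f0 := γ j - W.starProjection (γ j) with hf0
  have hf0W : f0 ∈ Wᗮ := Submodule.sub_starProjection_mem_orthogonal _
  have hf0V : f0 ∈ V := V.sub_mem hjV (hWV (Submodule.starProjection_apply_mem _ _))
  have hf0ne : f0 ≠ 0 := by
    intro h
    apply hγW
    rw [hf0, sub_eq_zero] at h
    rw [h]
    exact Submodule.starProjection_apply_mem _ _
  have hf0j : ⟪f0, γ j⟫_K = ⟪f0, f0⟫_K := by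
    have : γ j = f0 + W.starProjection (γ j) := by rw [hf0]; abel
    conv_lhs => rw [this]
    rw [inner_add_right, Submodule.inner_left_of_mem_orthogonal (Submodule.starProjection_apply_mem _ _) hf0W, add_zero]
  have hfr : Module.finrank K Vᗮ = l - q - 1 := by
    have h1 := Submodule.finrank_add_finrank_orthogonal V
    have h2 : Module.finrank K V = q + 1 := by
      rw [hV, finrank_span_eq_card hγi]; simp
    rw [h2, finrank_euclideanSpace] at h1
    simp at h1
    omega
  set sb := (stdOrthonormalBasis K Vᗮ).reindex (finCongr hfr) with hsb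
  set nf : K := ((‖f0‖ : ℝ) : K)⁻¹ with hnf
  have hnf0 : nf ≠ 0 := by
    rw [hnf]
    simp [hf0ne]
  set v : Fin q ⊕ Fin (l - q - 1 + 1) → EuclideanSpace K (Fin l) :=
    Sum.elim (fun _ => 0) (Fin.cons (nf • f0) (fun a => (sb a : EuclideanSpace K (Fin l)))) with hv
  have hon : Orthonormal K (Fin.cons (nf • f0) (fun a => (sb a : EuclideanSpace K (Fin l))) : Fin (l - q - 1 + 1) → EuclideanSpace K (Fin l)) := by
    have hsbon : Orthonormal K (fun a => (sb a : EuclideanSpace K (Fin l))) :=
      sb.orthonormal.comp_linearIsometry Vᗮ.subtypeₗᵢ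
    constructor
    · intro a
      refine Fin.cases ?_ (fun a => ?_) a
      · rw [Fin.cons_zero, norm_smul, hnf, norm_inv]
        simp [hf0ne]
      · rw [Fin.cons_succ]
        exact hsbon.1 a
    · intro a b hab
      induction a using Fin.cases with
      | zero =>
        induction b using Fin.cases with
        | zero => exact absurd rfl hab
        | succ b =>
          rw [Fin.cons_zero, Fin.cons_succ, inner_smul_left,
            Submodule.inner_right_of_mem_orthogonal hf0V (sb b).2, mul_zero]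
      | succ a =>
        induction b using Fin.cases with
        | zero =>
          rw [Fin.cons_zero, Fin.cons_succ, inner_smul_right,
            Submodule.inner_left_of_mem_orthogonal hf0V (sb a).2, mul_zero]
        | succ b =>
          rw [Fin.cons_succ, Fin.cons_succ]
          exact hsbon.2 (fun h => hab (by rw [h]))
  have hon2 : Orthonormal K ((Set.range (Sum.inr : Fin (l - q - 1 + 1) → Fin q ⊕ Fin (l - q - 1 + 1))).restrict v) := by
    have h := hon.comp (Equiv.ofInjective _ (Sum.inr_injective (α := Fin q) (β := Fin (l - q - 1 + 1)))).symm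
      (Equiv.injective _)
    convert h using 1
    funext x
    obtain ⟨_, a, rfl⟩ := x
    simp [hv, Function.comp, Set.restrict]
  obtain ⟨b, hb⟩ := hon2.exists_orthonormalBasis_extension_of_card_eq (by
    rw [finrank_euclideanSpace]
    simp
    omega)
  have hb0 : b (Sum.inr 0) = nf • f0 := by
    rw [hb _ ⟨0, rfl⟩]; simp [hv]
  have hbs : ∀ a : Fin (l - q - 1), b (Sum.inr a.succ) = (sb a : EuclideanSpace K (Fin l)) := by
    intro a
    rw [hb _ ⟨a.succ, rfl⟩]; simp [hv]
  refine ⟨b, ?_, ?_, ?_, ?_⟩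
  · intro x hx
    have hxV : x ∈ V := by
      rw [← Submodule.orthogonal_orthogonal V, Submodule.mem_orthogonal]
      intro u hu
      have h1 : (⟨u, hu⟩ : Vᗮ) ∈ Submodule.span K (Set.range sb) := by
        have h0 := sb.toBasis.span_eq
        rw [sb.coe_toBasis] at h0
        rw [h0]; trivial
      have h2 : ∀ y ∈ Submodule.span K (Set.range sb), ⟪(y : EuclideanSpace K (Fin l)), x⟫_K = 0 := by
        intro y hy
        induction hy using Submodule.span_induction with
        | mem y hy =>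
          obtain ⟨a, rfl⟩ := hy
          rw [← hbs a]; exact hx _
        | zero => simp
        | add y z _ _ h1 h2 => rw [Submodule.coe_add, inner_add_left, h1, h2, add_zero]
        | smul c y _ h1 => rw [Submodule.coe_smul, inner_smul_left, h1, mul_zero]
      exact h2 _ h1
    have h0 : ⟪f0, x⟫_K = 0 := by
      have := hx 0
      rw [hb0, inner_smul_left] at this
      rcases mul_eq_zero.1 this with h | h
      · exact absurd h (by simpa using hnf0)
      · exact h
    -- `V = W + span {γ j}`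
    have hVs : ∀ y ∈ V, ∃ c : K, y - c • f0 ∈ W := by
      intro y hy
      induction hy using Submodule.span_induction with
      | mem y hy =>
        obtain ⟨i, rfl⟩ := hy
        by_cases hij : i = j
        · subst hij
          refine ⟨1, ?_⟩
          rw [one_smul, hf0, sub_sub_cancel]
          exact Submodule.starProjection_apply_mem _ _
        · obtain ⟨i', rfl⟩ := Fin.exists_succAbove_eq hij
          refine ⟨0, ?_⟩
          rw [zero_smul, sub_zero]
          exact Submodule.subset_span ⟨i', rfl⟩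
      | zero => exact ⟨0, by simp⟩
      | add y z _ _ h1 h2 =>
        obtain ⟨c, hc⟩ := h1
        obtain ⟨d, hd⟩ := h2
        refine ⟨c + d, ?_⟩
        have : y + z - (c + d) • f0 = (y - c • f0) + (z - d • f0) := by rw [add_smul]; abel
        rw [this]
        exact W.add_mem hc hd
      | smul a y _ h1 =>
        obtain ⟨c, hc⟩ := h1
        refine ⟨a * c, ?_⟩
        have : a • y - (a * c) • f0 = a • (y - c • f0) := by rw [mul_smul, ← smul_sub]
        rw [this]
        exact W.smul_mem _ hc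
    obtain ⟨c, hc⟩ := hVs x hxV
    have h3 : ⟪f0, x - c • f0⟫_K = 0 := Submodule.inner_left_of_mem_orthogonal hc hf0W
    rw [inner_sub_right, h0, inner_smul_right, zero_sub, neg_eq_zero] at h3
    rcases mul_eq_zero.1 h3 with h | h
    · rw [h, zero_smul, sub_zero] at hc
      exact hc
    · exact absurd (inner_self_eq_zero.1 h) hf0ne
  · intro a
    rw [hbs]
    exact Submodule.inner_left_of_mem_orthogonal hjV (sb a).2
  · intro a i
    induction a using Fin.cases with
    | zero =>
      rw [hb0, inner_smul_left, Submodule.inner_left_of_mem_orthogonal (hgi i) hf0W, mul_zero]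
    | succ a =>
      rw [hbs]
      exact Submodule.inner_left_of_mem_orthogonal (hWV (hgi i)) (sb a).2
  · rw [hb0, inner_smul_left]
    change (starRingEnd K) nf * ⟪f0, γ j⟫_K ≠ 0
    rw [hf0j]
    refine mul_ne_zero (by simpa using hnf0) ?_
    rw [Ne, inner_self_eq_zero]
    exact hf0ne

theorem nsq_eq {ι : Type} [Fintype ι] (x : ι → K) :
    nsq x = ENNReal.ofReal (‖(WithLp.toLp 2 x : EuclideanSpace K ι)‖ ^ 2) := by
  rw [EuclideanSpace.norm_sq_eq, ENNReal.ofReal_sum_of_nonneg (fun _ _ => by positivity)]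
  unfold nsq
  apply Finset.sum_congr rfl
  intro i _
  rw [ENNReal.ofReal_pow (norm_nonneg _), ofReal_norm_eq_enorm]

theorem point {l q r m : ℕ} (g : Fin (q + 1) → Fin l → K) (j : Fin (q + 1))
    (b : OrthonormalBasis (Fin q ⊕ Fin (r + 1)) K (EuclideanSpace K (Fin l)))
    (h1 : ∀ x : EuclideanSpace K (Fin l), (∀ a, ⟪b (Sum.inr a), x⟫_K = 0) →
        x ∈ Submodule.span K (Set.range fun i : Fin q => (WithLp.toLp 2 (g (j.succAbove i)) : EuclideanSpace K (Fin l))))
    (h2 : ∀ a : Fin r, ⟪b (Sum.inr a.succ), (WithLp.toLp 2 (g j) : EuclideanSpace K (Fin l))⟫_K = 0)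
    (h3 : ∀ a (i : Fin q), ⟪b (Sum.inr a), (WithLp.toLp 2 (g (j.succAbove i)) : EuclideanSpace K (Fin l))⟫_K = 0)
    (h4 : ⟪b (Sum.inr 0), (WithLp.toLp 2 (g j) : EuclideanSpace K (Fin l))⟫_K ≠ 0)
    (h : Fin m → Fin l → K) :
    dist2 (fun (a : Fin r) (k : Fin m) => (b.repr (WithLp.toLp 2 (h k))) (Sum.inr a.succ))
      (fun k => (b.repr (WithLp.toLp 2 (h k))) (Sum.inr 0)) *
      (dist2 (fun i : Fin q => g (j.succAbove i)) (g j))⁻¹ ≤ lam g h j := by
  set C0 : Fin m → K := fun k => (b.repr (WithLp.toLp 2 (h k))) (Sum.inr 0) with hC0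
  set C : Fin r → Fin m → K := fun a k => (b.repr (WithLp.toLp 2 (h k))) (Sum.inr a.succ) with hC
  set c : K := ⟪b (Sum.inr 0), (WithLp.toLp 2 (g j) : EuclideanSpace K (Fin l))⟫_K with hc
  have hcpos : 0 < ‖c‖ := norm_pos_iff.2 h4
  set S : Submodule K (EuclideanSpace K (Fin m)) :=
    Submodule.span K (Set.range fun a => (WithLp.toLp 2 (C a) : EuclideanSpace K (Fin m))) with hS
  set T0 : EuclideanSpace K (Fin m) := WithLp.toLp 2 C0 with hT0
  set R : EuclideanSpace K (Fin m) := T0 - S.starProjection T0 with hR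
  have hRS : R ∈ Sᗮ := Submodule.sub_starProjection_mem_orthogonal _
  have hRR : ⟪R, T0⟫_K = ((‖R‖ ^ 2 : ℝ) : K) := by
    have e : T0 = R + S.starProjection T0 := by rw [hR]; abel
    conv_lhs => rw [e]
    rw [inner_add_right, Submodule.inner_left_of_mem_orthogonal (Submodule.starProjection_apply_mem _ _) hRS, add_zero,
      inner_self_eq_norm_sq_to_K]
    push_cast
    rfl
  have hRC : ∀ a, ⟪R, (WithLp.toLp 2 (C a) : EuclideanSpace K (Fin m))⟫_K = 0 := fun a =>
    Submodule.inner_left_of_mem_orthogonal (Submodule.subset_span (Set.mem_range_self a)) hRS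
  have hdR : dist2 C C0 ≤ ENNReal.ofReal (‖R‖ ^ 2) := by
    obtain ⟨w, hw⟩ := (Submodule.mem_span_range_iff_exists_fun K).1 (Submodule.starProjection_apply_mem S T0)
    refine iInf_le_of_le (fun a => - w a) (le_of_eq ?_)
    rw [nsq_eq]
    congr 3
    rw [hR, ← hw, hT0]
    ext k
    simp [Finset.sum_neg_distrib, sub_eq_add_neg]
  have hdg : ENNReal.ofReal (‖c‖ ^ 2) ≤ dist2 (fun i : Fin q => g (j.succAbove i)) (g j) := by
    refine le_iInf fun v => ?_
    rw [nsq_eq]
    apply ENNReal.ofReal_le_ofReal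
    apply pow_le_pow_left₀ (norm_nonneg _)
    have e : c = ⟪b (Sum.inr 0), (WithLp.toLp 2 (g j + ∑ k, v k • g (j.succAbove k)) : EuclideanSpace K (Fin l))⟫_K := by
      rw [WithLp.toLp_add, inner_add_right, WithLp.toLp_sum, inner_sum]
      simp_rw [WithLp.toLp_smul, inner_smul_right, h3, mul_zero]
      rw [Finset.sum_const_zero, add_zero]
    rw [e]
    refine (norm_inner_le_norm _ _).trans ?_
    rw [b.orthonormal.1, one_mul]
  by_cases hR0 : R = 0
  · rw [hR0] at hdR
    have : dist2 C C0 = 0 := by simpa using hdR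
    rw [this, zero_mul]
    exact zero_le
  have hRpos : 0 < ‖R‖ := norm_pos_iff.2 hR0
  set u : Fin m → K := fun k => -(c / ((‖R‖ ^ 2 : ℝ) : K)) * star (R k) with hu
  have hRK : ((‖R‖ ^ 2 : ℝ) : K) ≠ 0 := by
    rw [Ne, RCLike.ofReal_eq_zero]
    positivity
  have husum : ∀ y : Fin m → K, ∑ k, u k * y k = -(c / ((‖R‖ ^ 2 : ℝ) : K)) *
      ⟪R, (WithLp.toLp 2 y : EuclideanSpace K (Fin m))⟫_K := by
    intro y
    rw [PiLp.inner_apply, Finset.mul_sum]
    apply Finset.sum_congr rfl
    intro k _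
    simp only [hu, RCLike.inner_apply, RCLike.star_def]
    ring
  have hnu : nsq u = ENNReal.ofReal (‖c‖ ^ 2 / ‖R‖ ^ 2) := by
    unfold nsq
    have e1 : ∀ k, ‖u k‖ₑ ^ 2 = ENNReal.ofReal ((‖c‖ / ‖R‖ ^ 2) ^ 2 * ‖R k‖ ^ 2) := by
      intro k
      rw [← ofReal_norm_eq_enorm, ← ENNReal.ofReal_pow (norm_nonneg _), ← mul_pow]
      congr 2
      simp only [hu]
      rw [norm_mul, norm_neg, norm_div, norm_star, RCLike.norm_ofReal, abs_of_pos (by positivity)]
    simp_rw [e1]
    rw [← ENNReal.ofReal_sum_of_nonneg (fun _ _ => by positivity), ← Finset.mul_sum,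
      ← EuclideanSpace.norm_sq_eq]
    congr 1
    field_simp
  have hle : dist2 C C0 * (dist2 (fun i : Fin q => g (j.succAbove i)) (g j))⁻¹ ≤ (nsq u)⁻¹ := by
    calc dist2 C C0 * (dist2 (fun i : Fin q => g (j.succAbove i)) (g j))⁻¹
        ≤ ENNReal.ofReal (‖R‖ ^ 2) * (ENNReal.ofReal (‖c‖ ^ 2))⁻¹ :=
          mul_le_mul' hdR (ENNReal.inv_le_inv.2 hdg)
      _ = (nsq u)⁻¹ := by
          rw [hnu, ← ENNReal.ofReal_inv_of_pos (by positivity), ← ENNReal.ofReal_mul (by positivity),
            ← ENNReal.ofReal_inv_of_pos (by positivity)]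
          congr 1
          field_simp
  refine hle.trans ?_
  -- the combination
  set x : EuclideanSpace K (Fin l) := WithLp.toLp 2 (g j) + ∑ k, u k • (WithLp.toLp 2 (h k) : EuclideanSpace K (Fin l)) with hx
  have hx0 : ∀ a, ⟪b (Sum.inr a), x⟫_K = 0 := by
    intro a
    rw [hx, inner_add_right, inner_sum]
    simp_rw [inner_smul_right, ← OrthonormalBasis.repr_apply_apply]
    induction a using Fin.cases with
    | zero =>
      have e := husum C0
      rw [hRR] at e
      rw [OrthonormalBasis.repr_apply_apply]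
      change c + ∑ k, u k * C0 k = 0
      rw [e]
      field_simp
      ring
    | succ a =>
      have e := husum (C a)
      rw [hRC a, mul_zero] at e
      rw [OrthonormalBasis.repr_apply_apply, h2]
      change 0 + ∑ k, u k * C a k = 0
      rw [e, zero_add]
  obtain ⟨w, hw⟩ := (Submodule.mem_span_range_iff_exists_fun K).1 (h1 x hx0)
  unfold lam
  refine le_iSup_of_le (j.insertNth 1 (fun i => - w i) : Fin (q + 1) → K)
    (le_iSup_of_le u (le_iSup_of_le (by simp) (le_iSup_of_le ?_ le_rfl)))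
  rw [Fin.sum_univ_succAbove _ j]
  simp only [Fin.insertNth_apply_same, Fin.insertNth_apply_succAbove, one_smul, neg_smul]
  have hw' := congrArg WithLp.ofLp hw
  rw [hx] at hw'
  funext y
  have hy := congrFun hw' y
  simp only [WithLp.ofLp_sum, WithLp.ofLp_add, WithLp.ofLp_smul, Finset.sum_apply, Pi.smul_apply, Pi.add_apply,
    smul_eq_mul] at hy
  simp only [Pi.add_apply, Finset.sum_apply, Pi.neg_apply, Pi.smul_apply, smul_eq_mul, Pi.zero_apply,
    Finset.sum_neg_distrib]
  rw [hy]
  ring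

theorem t_ROW (hB2 : S_B2) (hD2 : S_D2) (hD3 : S_D3) : S_ROW := by
  intro K _ _ _ q m l hql hlm g hg j
  obtain ⟨b, h1, h2, h3, h4⟩ := basis_ex hql g hg j
  have hp := coef hB2 m b
  calc (Module.finrank ℝ K : ℝ≥0∞) * ((q + 1 + m - l : ℕ) : ℝ≥0∞) *
        (dist2 (fun i : Fin q => g (j.succAbove i)) (g j))⁻¹
      = (∫⁻ C, dist2 (fun a : Fin (l - q - 1) => C a.succ) (C 0)
          ∂(Measure.pi fun _ : Fin (l - q - 1 + 1) => gK K (Fin m))) *
        (dist2 (fun i : Fin q => g (j.succAbove i)) (g j))⁻¹ := by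
        rw [int_dist hD2 hD3 m (l - q - 1) (by omega),
          show q + 1 + m - l = m - (l - q - 1) by omega]
    _ ≤ (∫⁻ h, dist2 (fun (a : Fin (l - q - 1)) (k : Fin m) => (b.repr (WithLp.toLp 2 (h k))) (Sum.inr a.succ))
          (fun k => (b.repr (WithLp.toLp 2 (h k))) (Sum.inr 0)) ∂(gM K m l)) *
        (dist2 (fun i : Fin q => g (j.succAbove i)) (g j))⁻¹ := by
        gcongr
        rw [← hp.map_eq]
        exact lintegral_map_le _ _
    _ ≤ ∫⁻ h, dist2 (fun (a : Fin (l - q - 1)) (k : Fin m) => (b.repr (WithLp.toLp 2 (h k))) (Sum.inr a.succ))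
          (fun k => (b.repr (WithLp.toLp 2 (h k))) (Sum.inr 0)) *
        (dist2 (fun i : Fin q => g (j.succAbove i)) (g j))⁻¹ ∂(gM K m l) := lintegral_mul_const_le _ _
    _ ≤ ∫⁻ h, lam g h j ∂(gM K m l) := lintegral_mono fun h => point g j b h1 h2 h3 h4 h

end Pool.Agent.X287.RS
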